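import Mathlib
import Pool.Agent.H.MP_49e939_nt.A

namespace Pool.Agent.Results.MP_49e939_nt.Full

theorem result : ∀ n : ℕ, 1 ≤ n → ∃ b : ℕ,
    (∑ k ∈ Finset.range (n + 1), (((6 * k).choose (3 * k) * (3 * k).choose k *
        ((6 * (n - k)).choose (3 * (n - k)) * (3 * (n - k)).choose (n - k)) : ℕ) : ℚ)) /
      ((2 * (n : ℚ) - 1) * ((3 * n).choose n : ℚ)) = 8 * (b : ℚ) ∧
    (Odd b ↔ ∃ j : ℕ, n = 2 ^ j) := by
  intro n hn
  obtain ⟨b, h1, h2⟩ := Pool.Agent.H.MP_49e939_nt.main n hn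
  refine ⟨b, ?_, h2⟩
  have h3 : (0 : ℚ) < (3 * n).choose n := by exact_mod_cast Nat.choose_pos (by omega)
  have h4 : (1 : ℚ) ≤ n := by exact_mod_cast hn
  rw [div_eq_iff (mul_pos (by linarith) h3).ne', ← Nat.cast_sum]
  simp only [Pool.Agent.H.MP_49e939_nt.t] at h1
  rw [h1]
  push_cast [Nat.cast_sub (show 1 ≤ 2 * n by omega)]
  ring

end Pool.Agent.Results.MP_49e939_nt.Full
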